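import Mathlib
import Pool.Agent.N751.CV.Stm

/-!
# PX/UP (helper645): upper bounds for norm forms
-/

set_option autoImplicit false

namespace Pool.Agent.N645.PX.Up

open NumberField IsDedekindDomain Module Polynomial Pool.Agent.N753.DR Pool.Agent.N751.CV

theorem up_abs {K R : Type} [Field K] [CommRing R] [Algebra K R] [FiniteDimensional K R]
    (v : AbsoluteValue K ℝ) {m : ℕ} (β : Fin m → R) :
    ∃ C : ℝ, 0 ≤ C ∧ ∀ T : ℝ, 0 ≤ T → ∀ c : Fin m → K, (∀ i, v (c i) ≤ T) →
      v (Nm β c) ≤ C * T ^ finrank K R := by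
  classical
  set b := Module.finBasis K R with hb
  set E : ℝ := ∑ i, ∑ j, ∑ k, v (Algebra.leftMulMatrix b (β i) j k) with hE
  have hE0 : 0 ≤ E := Finset.sum_nonneg fun i _ => Finset.sum_nonneg fun j _ =>
    Finset.sum_nonneg fun k _ => v.nonneg _
  have hent : ∀ i j k, v (Algebra.leftMulMatrix b (β i) j k) ≤
      ∑ j, ∑ k, v (Algebra.leftMulMatrix b (β i) j k) := by
    intro i j k
    refine le_trans ?_ (Finset.single_le_sum (f := fun j => ∑ k, v (Algebra.leftMulMatrix b (β i) j k))
      (fun j _ => Finset.sum_nonneg fun k _ => v.nonneg _) (Finset.mem_univ j))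
    exact Finset.single_le_sum (f := fun k => v (Algebra.leftMulMatrix b (β i) j k))
      (fun k _ => v.nonneg _) (Finset.mem_univ k)
  refine ⟨(finrank K R).factorial * E ^ finrank K R, by positivity, fun T hT c hc => ?_⟩
  have h1 : Nm β c = (∑ i, c i • Algebra.leftMulMatrix b (β i)).det := by
    rw [Nm, Algebra.norm_eq_matrix_det b, map_sum]
    simp only [map_smul]
  have h2 : ∀ j k, v ((∑ i, c i • Algebra.leftMulMatrix b (β i)) j k) ≤ E * T := by
    intro j k
    rw [Matrix.sum_apply]
    refine (v.sum_le _ _).trans ?_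
    rw [hE, Finset.sum_mul]
    refine Finset.sum_le_sum fun i _ => ?_
    rw [Matrix.smul_apply, smul_eq_mul, map_mul, mul_comm]
    exact mul_le_mul (hent i j k) (hc i) (v.nonneg _)
      (Finset.sum_nonneg fun j _ => Finset.sum_nonneg fun k _ => v.nonneg _)
  rw [h1]
  refine (Matrix.det_le h2).trans (le_of_eq ?_)
  rw [Fintype.card_fin, nsmul_eq_mul, mul_pow, mul_assoc]

theorem t : StmUp := by
  intro K R _ _ _ _ _ m β
  constructor
  · intro σ
    obtain ⟨C, hC, h⟩ := up_abs (place σ) β
    set C1 : ℝ := ∑ k, ‖σ (RingOfIntegers.basis K k : 𝓞 K)‖ with hC1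
    have hC10 : 0 ≤ C1 := Finset.sum_nonneg fun k _ => norm_nonneg _
    refine ⟨C * C1 ^ finrank K R, fun B _ c hc => ?_⟩
    have h1 : ∀ i, place σ (c i : K) ≤ C1 * B := by
      intro i
      rw [place_apply]
      have h2 : c i = ∑ k, (RingOfIntegers.basis K).repr (c i) k • RingOfIntegers.basis K k :=
        ((RingOfIntegers.basis K).sum_repr (c i)).symm
      have h3 : (c i : K) = ∑ k, (((RingOfIntegers.basis K).repr (c i) k : ℤ) : K) *
          ((RingOfIntegers.basis K k : 𝓞 K) : K) := by
        conv_lhs => rw [h2]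
        rw [RingOfIntegers.coe_eq_algebraMap, map_sum]
        refine Finset.sum_congr rfl fun k _ => ?_
        rw [zsmul_eq_mul, map_mul, map_intCast]
      rw [h3, map_sum]
      refine (norm_sum_le _ _).trans ?_
      rw [hC1, Finset.sum_mul]
      refine Finset.sum_le_sum fun k _ => ?_
      rw [map_mul, norm_mul, map_intCast, mul_comm]
      refine mul_le_mul_of_nonneg_left ?_ (norm_nonneg _)
      have h4 : ((RingOfIntegers.basis K).repr (c i) k).natAbs ≤ B := by
        have h5 : sz (c i) ≤ B := hc i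
        rw [sz, Finset.sup_le_iff] at h5
        exact h5 k (Finset.mem_univ k)
      rw [Complex.norm_intCast]
      have h6 : ((((RingOfIntegers.basis K).repr (c i) k).natAbs : ℕ) : ℝ) ≤ B := by
        exact_mod_cast h4
      rwa [Nat.cast_natAbs, Int.cast_abs] at h6
    have h2 := h (C1 * B) (by positivity) (fun i => (c i : K)) h1
    rw [place_apply] at h2
    refine h2.trans (le_of_eq ?_)
    rw [mul_pow, mul_assoc]
  · intro v
    obtain ⟨C, hC, h⟩ := up_abs (FinitePlace.mk v).val β
    refine ⟨C, fun c => ?_⟩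
    have h1 := h 1 zero_le_one (fun i => (c i : K)) fun i =>
      FinitePlace.norm_le_one K v (c i)
    rw [one_pow, mul_one] at h1
    exact h1

end Pool.Agent.N645.PX.Up
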